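import Pool.Agent.Helper93.TS.Stmts

/-!
# Class-wise injectivity suffices in the sums-differences inequality
-/

set_option autoImplicit false

namespace Pool.Agent.Helper93.TS

open Pool.Agent.Helper8.Kak

/-- the inequality for one class -/
theorem sdc_one {m : ℕ} {α C : ℝ} {δ : ℝ} {M : ℕ}
    (h : ∀ (L : Type) (x v : L → Fin m → ℝ), (∀ l i, |v l i| ≤ 1) →
      Function.Injective (fun l => cell δ (v l)) →
      ∀ (Ω : Type) [Fintype Ω] (p : Ω → ℝ), IsProb p →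
      ∀ (K : Setoid Ω) (l : Ω → L) (T : Ω → Fin M),
      Ent p (K ⊓ Setoid.ker l) - Ent p K ≤
        α * (Ent p (K ⊓ Setoid.ker T ⊓ Setoid.ker (fun ω => cell δ (pnt x v (l ω) (T ω))))
              - Ent p (K ⊓ Setoid.ker T))
        + C * (Real.log M - (Ent p (K ⊓ Setoid.ker l ⊓ Setoid.ker T) - Ent p (K ⊓ Setoid.ker l))
              + 1))
    {L : Type} (x v : L → Fin m → ℝ) (hv : ∀ l i, |v l i| ≤ 1)
    {Ω : Type} [Fintype Ω] {q : Ω → ℝ} (hq : IsProb q) (l : Ω → L) (T : Ω → Fin M) {w : Ω}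
    (hw : 0 < q w)
    (hinj : ∀ ω ω', 0 < q ω → 0 < q ω' → cell δ (v (l ω)) = cell δ (v (l ω')) → l ω = l ω') :
    Ent q (Setoid.ker l) ≤
      α * (Ent q (Setoid.ker T ⊓ Setoid.ker (fun ω => cell δ (pnt x v (l ω) (T ω))))
            - Ent q (Setoid.ker T))
      + C * (Real.log M - (Ent q (Setoid.ker l ⊓ Setoid.ker T) - Ent q (Setoid.ker l)) + 1) := by
  classical
  set L' : Type := {a : L // ∃ ω, 0 < q ω ∧ l ω = a} with hL'
  set l' : Ω → L' := fun ω => if h : 0 < q ω then ⟨l ω, ω, h, rfl⟩ else ⟨l w, w, hw, rfl⟩ with hl'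
  have e : ∀ ω, 0 < q ω → (l' ω).1 = l ω := by
    intro ω h0
    rw [hl']
    simp only
    rw [dif_pos h0]
  have k := h L' (fun a => x a.1) (fun a => v a.1) (fun a i => hv a.1 i) (by
    rintro ⟨a, w1, h1, rfl⟩ ⟨b, w2, h2, rfl⟩ hab
    exact Subtype.ext (hinj w1 w2 h1 h2 hab)) Ω q hq ⊤ l' T
  have e1 : Ent q (⊤ ⊓ Setoid.ker l') = Ent q (Setoid.ker l) := by
    rw [top_inf_eq]
    refine Ent_congr' hq fun ω ω' h0 h0' => ?_
    rw [Setoid.ker_def, Setoid.ker_def, ← e ω h0, ← e ω' h0']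
    exact Subtype.ext_iff
  have e2 : Ent q (⊤ ⊓ Setoid.ker l' ⊓ Setoid.ker T) = Ent q (Setoid.ker l ⊓ Setoid.ker T) := by
    rw [top_inf_eq]
    refine Ent_congr' hq fun ω ω' h0 h0' => ?_
    have a0 : l' ω = l' ω' ↔ l ω = l ω' := by
      rw [← e ω h0, ← e ω' h0']
      exact Subtype.ext_iff
    exact and_congr_left fun _ => a0
  have e3 : Ent q (⊤ ⊓ Setoid.ker T ⊓ Setoid.ker
      (fun ω => cell δ (pnt (fun a : L' => x a.1) (fun a : L' => v a.1) (l' ω) (T ω))))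
      = Ent q (Setoid.ker T ⊓ Setoid.ker (fun ω => cell δ (pnt x v (l ω) (T ω)))) := by
    rw [top_inf_eq]
    refine Ent_congr' hq fun ω ω' h0 h0' => ?_
    have a1 : pnt (fun a : L' => x a.1) (fun a : L' => v a.1) (l' ω) (T ω)
        = pnt x v (l ω) (T ω) := by
      rw [← e ω h0]
      rfl
    have a2 : pnt (fun a : L' => x a.1) (fun a : L' => v a.1) (l' ω') (T ω')
        = pnt x v (l ω') (T ω') := by
      rw [← e ω' h0']
      rfl
    have a3 : cell δ (pnt (fun a : L' => x a.1) (fun a : L' => v a.1) (l' ω) (T ω))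
          = cell δ (pnt (fun a : L' => x a.1) (fun a : L' => v a.1) (l' ω') (T ω'))
        ↔ cell δ (pnt x v (l ω) (T ω)) = cell δ (pnt x v (l ω') (T ω')) := by rw [a1, a2]
    exact and_congr_right fun _ => a3
  rw [e1, e2, e3, top_inf_eq, Ent_top hq, sub_zero] at k
  exact k

theorem st_SDC (h1 : ST_CLS) : ST_SDC := by
  intro m α ⟨C, hC, h⟩
  refine ⟨C, hC, ?_⟩
  intro δ M hδ hδ1 hM L x v hv Ω _ p hp K l T hinj
  obtain ⟨c1, c2, c3⟩ := h1 Ω p hp K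
  have key : ∀ ω, p ω * Ent (cnd p K ω) (Setoid.ker l) ≤
      p ω * (α * (Ent (cnd p K ω) (Setoid.ker T ⊓ Setoid.ker
          (fun ω => cell δ (pnt x v (l ω) (T ω)))) - Ent (cnd p K ω) (Setoid.ker T))
      + C * (Real.log M - (Ent (cnd p K ω) (Setoid.ker l ⊓ Setoid.ker T)
          - Ent (cnd p K ω) (Setoid.ker l)) + 1)) := by
    intro ω
    rcases (hp.1 ω).eq_or_lt with h0 | h0
    · rw [← h0, zero_mul, zero_mul]
    · refine mul_le_mul_of_nonneg_left ?_ h0.le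
      refine sdc_one (h δ M hδ hδ1 hM) x v hv (c1 ω h0) l T (w := ω)
        ((c2 ω ω h0).2 ⟨K.refl ω, h0⟩) fun w1 w2 g1 g2 g3 => ?_
      obtain ⟨k1, p1⟩ := (c2 ω w1 h0).1 g1
      obtain ⟨k2, p2⟩ := (c2 ω w2 h0).1 g2
      exact hinj w1 w2 p1 p2 (K.trans (K.symm k1) k2) g3
  have s := Finset.sum_le_sum fun ω (_ : ω ∈ Finset.univ) => key ω
  have a1 := c3 (Setoid.ker l)
  have a2 := c3 (Setoid.ker T)
  have a3 := c3 (Setoid.ker T ⊓ Setoid.ker (fun ω => cell δ (pnt x v (l ω) (T ω))))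
  have a4 := c3 (Setoid.ker l ⊓ Setoid.ker T)
  rw [← inf_assoc] at a3 a4
  have b : ∑ ω, p ω * (α * (Ent (cnd p K ω) (Setoid.ker T ⊓ Setoid.ker
          (fun ω => cell δ (pnt x v (l ω) (T ω)))) - Ent (cnd p K ω) (Setoid.ker T))
      + C * (Real.log M - (Ent (cnd p K ω) (Setoid.ker l ⊓ Setoid.ker T)
          - Ent (cnd p K ω) (Setoid.ker l)) + 1))
      = α * ((∑ ω, p ω * Ent (cnd p K ω) (Setoid.ker T ⊓ Setoid.ker
          (fun ω => cell δ (pnt x v (l ω) (T ω))))) - ∑ ω, p ω * Ent (cnd p K ω) (Setoid.ker T))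
      + C * ((∑ ω, p ω) * Real.log M - ((∑ ω, p ω * Ent (cnd p K ω) (Setoid.ker l ⊓ Setoid.ker T))
          - ∑ ω, p ω * Ent (cnd p K ω) (Setoid.ker l)) + ∑ ω, p ω) := by
    rw [Finset.sum_mul, ← Finset.sum_sub_distrib, ← Finset.sum_sub_distrib,
      ← Finset.sum_sub_distrib, ← Finset.sum_add_distrib, Finset.mul_sum, Finset.mul_sum,
      ← Finset.sum_add_distrib]
    refine Finset.sum_congr rfl fun ω _ => ?_
    ring
  rw [b, hp.2, ← a1, ← a2, ← a3, ← a4] at s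
  have e : Ent p (K ⊓ Setoid.ker T ⊓ Setoid.ker (fun ω => cell δ (pnt x v (l ω) (T ω))))
        - Ent p (K ⊓ Setoid.ker T)
      = (Ent p (K ⊓ Setoid.ker T ⊓ Setoid.ker (fun ω => cell δ (pnt x v (l ω) (T ω))))
        - Ent p K) - (Ent p (K ⊓ Setoid.ker T) - Ent p K) := by ring
  have e' : Ent p (K ⊓ Setoid.ker l ⊓ Setoid.ker T) - Ent p (K ⊓ Setoid.ker l)
      = (Ent p (K ⊓ Setoid.ker l ⊓ Setoid.ker T) - Ent p K)
        - (Ent p (K ⊓ Setoid.ker l) - Ent p K) := by ring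
  rw [e, e']
  linarith

end Pool.Agent.Helper93.TS
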