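import Pool.Agent.Helper93.TS.Stmts

/-!
# Total entropy of the glued space
-/

set_option autoImplicit false

namespace Pool.Agent.Helper93.TS

open Pool.Agent.Helper8.Kak

section

variable {m N : ℕ} (D : Dat m N)

theorem spt_ker_fL : Ent D.p (Setoid.ker (fL ⊤ D.l)) = D.eL :=
  Ent_congr' D.hp fun _ _ _ _ => fL_eq.trans ⟨fun h => h.2, fun h => ⟨trivial, h⟩⟩

theorem spt_ker_fP : Ent D.p (Setoid.ker (fP ⊤ D.l D.T D.Pf)) = D.eP :=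
  Ent_congr' D.hp fun _ _ _ _ => fP_eq.trans ⟨fun h => ⟨h.2.1, h.2.2⟩,
    fun h => ⟨trivial, h.1, h.2⟩⟩

/-- everything in the base space -/
def spt_rB : Setoid D.Ω := Setoid.ker D.l ⊓ Setoid.ker D.T

theorem spt_rB_fL {a a' : D.Ω} (h : spt_rB D a a') : fL ⊤ D.l a = fL ⊤ D.l a' :=
  fL_eq.2 ⟨trivial, h.1⟩

theorem spt_rB_fP {a a' : D.Ω} (h : spt_rB D a a') :
    fP ⊤ D.l D.T D.Pf a = fP ⊤ D.l D.T D.Pf a' := by
  have h1 : D.l a = D.l a' := h.1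
  have h2 : D.T a = D.T a' := h.2
  exact fP_eq.2 ⟨trivial, h2, by rw [h1, h2]⟩

theorem spt_rB_fJ {a a' : D.Ω} (h : spt_rB D a a') : fJ D.l D.T a = fJ D.l D.T a' := by
  have h1 : D.l a = D.l a' := h.1
  have h2 : D.T a = D.T a' := h.2
  unfold fJ
  rw [h1, h2]

/-- everything in `pA1` -/
def spt_rA : Setoid (D.Ω × D.Ω) :=
  Setoid.comap Prod.fst (spt_rB D) ⊓ Setoid.comap Prod.snd (spt_rB D)

theorem spt_ent_rA : Ent (pA1 D.p ⊤ D.l) (spt_rA D) = 2 * D.eB - D.eL := by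
  have h := Ent_glue D.hp D.hp (f := fL ⊤ D.l) (g := fL ⊤ D.l) (fun _ => rfl) (spt_rB D)
    (spt_rB D) (fun _ _ _ _ h => spt_rB_fL D h) (fun _ _ _ _ h => spt_rB_fL D h)
  rw [spt_ker_fL D] at h
  have e : Ent D.p (spt_rB D) = D.eB := rfl
  rw [e] at h
  have e2 : Ent (pA1 D.p ⊤ D.l) (spt_rA D) = D.eB + D.eB - D.eL := h
  rw [e2]; ring

def spt_rY1 : Setoid ((D.Ω × D.Ω) × (D.Ω × D.Ω)) :=
  Setoid.comap Prod.fst (spt_rA D) ⊓ Setoid.comap Prod.snd (spt_rA D)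

theorem spt_ent_rY1 : Ent (pY1 D.p ⊤ D.l D.T D.Pf) (spt_rY1 D)
    = 4 * D.eB - 2 * D.eL - D.eP := by
  have h := Ent_glue (A1_prob ⊤ D.l D.hp) (A1_prob ⊤ D.l D.hp)
    (f := fP ⊤ D.l D.T D.Pf ∘ Prod.fst) (g := fP ⊤ D.l D.T D.Pf ∘ Prod.fst) (fun _ => rfl)
    (spt_rA D) (spt_rA D) (fun _ _ _ _ h => spt_rB_fP D h.1) (fun _ _ _ _ h => spt_rB_fP D h.1)
  have e3 : Ent (pA1 D.p ⊤ D.l) (Setoid.ker (fP ⊤ D.l D.T D.Pf ∘ Prod.fst)) = D.eP := by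
    rw [← spt_ker_fP D, ← (A1_fst ⊤ D.l D.hp).Ent_eq]
    rfl
  rw [e3, spt_ent_rA D] at h
  have e2 : Ent (pY1 D.p ⊤ D.l D.T D.Pf) (spt_rY1 D)
    = (2 * D.eB - D.eL) + (2 * D.eB - D.eL) - D.eP := h
  rw [e2]; ring

def spt_rY2 : Setoid (D.Ω × ((D.Ω × D.Ω) × (D.Ω × D.Ω))) :=
  Setoid.comap Prod.fst (spt_rB D) ⊓ Setoid.comap Prod.snd (spt_rY1 D)

theorem spt_ent_rY2 : Ent (pY2 D.p ⊤ D.l D.T D.Pf) (spt_rY2 D)
    = 5 * D.eB - 3 * D.eL - D.eP := by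
  have h := Ent_glue D.hp (Y1_prob ⊤ D.l D.T D.Pf D.hp)
    (f := fL ⊤ D.l) (g := fL ⊤ D.l ∘ (Prod.fst ∘ Prod.fst)) (Y2_law ⊤ D.l D.T D.Pf D.hp)
    (spt_rB D) (spt_rY1 D) (fun _ _ _ _ h => spt_rB_fL D h) (fun _ _ _ _ h => spt_rB_fL D h.1.1)
  rw [spt_ker_fL D, spt_ent_rY1 D] at h
  have e2 : Ent (pY2 D.p ⊤ D.l D.T D.Pf) (spt_rY2 D)
    = D.eB + (4 * D.eB - 2 * D.eL - D.eP) - D.eL := h
  rw [e2]; ring

theorem spt_MP : MP (pY2 D.p ⊤ D.l D.T D.Pf) D.p (fun y => y.2.1.1) :=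
  (Y2_snd ⊤ D.l D.T D.Pf D.hp).comp ((Y1_fst ⊤ D.l D.T D.Pf D.hp).comp (A1_fst ⊤ D.l D.hp))

theorem spt_law (c : D.L × Fin N) :
    law (pY2 D.p ⊤ D.l D.T D.Pf) (fun y => fJ D.l D.T y.2.1.1) c = law D.p (fJ D.l D.T) c :=
  (spt_MP D).law_eq (fJ D.l D.T) c

def spt_rZ : Setoid (Z D.Ω) :=
  Setoid.comap Prod.fst (spt_rY2 D) ⊓ Setoid.comap Prod.snd (spt_rB D)

theorem spt_ker_fJ : Ent D.p (Setoid.ker (fJ D.l D.T)) = D.eJ :=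
  Ent_congr' D.hp fun _ _ _ _ => Prod.ext_iff.trans ⟨fun h => ⟨h.1, h.2⟩, fun h => ⟨h.1, h.2⟩⟩

theorem spt_ent_rZ : Ent D.pz (spt_rZ D) = 6 * D.eB - 3 * D.eL - D.eP - D.eJ := by
  have h := Ent_glue (Y2_prob ⊤ D.l D.T D.Pf D.hp) D.hp
    (f := fun y : D.Ω × ((D.Ω × D.Ω) × (D.Ω × D.Ω)) => fJ D.l D.T y.2.1.1) (g := fJ D.l D.T)
    (spt_law D) (spt_rY2 D) (spt_rB D) (fun _ _ _ _ h => spt_rB_fJ D h.2.1.1)
    (fun _ _ _ _ h => spt_rB_fJ D h)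
  have e3 : Ent (pY2 D.p ⊤ D.l D.T D.Pf)
      (Setoid.ker (fun y : D.Ω × ((D.Ω × D.Ω) × (D.Ω × D.Ω)) => fJ D.l D.T y.2.1.1)) = D.eJ := by
    rw [← spt_ker_fJ D, ← (spt_MP D).Ent_eq]
    rfl
  rw [e3, spt_ent_rY2 D] at h
  have e2 : Ent D.pz (spt_rZ D) = (5 * D.eB - 3 * D.eL - D.eP) + D.eB - D.eJ := h
  rw [e2]; ring

theorem spt_rZ_iff (y y' : Z D.Ω) : spt_rZ D y y' ↔
    (spt_rB D (zT y) (zT y') ∧ ((spt_rB D (z0 y) (z0 y') ∧ spt_rB D (zS y) (zS y')) ∧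
      (spt_rB D (z1 y) (z1 y') ∧ spt_rB D (zR y) (zR y')))) ∧ spt_rB D (zB y) (zB y') := Iff.rfl

theorem spt_rB_iff (a a' : D.Ω) : spt_rB D a a' ↔ D.l a = D.l a' ∧ D.T a = D.T a' := Iff.rfl

end

theorem st_SPT (h1 : ST_SPA) : ST_SPT := by
  intro m N D
  obtain ⟨hp, hl, m0, -, -, -, -, mB⟩ := h1 m N D
  constructor
  · rw [← spt_ent_rZ D]
    unfold Dat.H HH
    refine Ent_mono' hp fun y y' h h' h2 => ?_
    have k := hl y h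
    have k' := hl y' h'
    rw [inf_rel] at h2
    simp only [Finset.mem_insert, Finset.mem_singleton, forall_eq_or_imp, forall_eq, Dat.V_l0,
      Dat.V_l1, Dat.V_T0, Dat.V_T1, Dat.V_S, Dat.V_R, Dat.V_B] at h2
    obtain ⟨g1, g2, g3, g4, g5, g6, g7⟩ := h2
    simp only [spt_rZ_iff, spt_rB_iff, k.lS, k.lT, k.lR, k.lB, k.t1, k'.lS, k'.lT, k'.lR, k'.lB,
      k'.t1, g1, g2, g3, g4, g5, g6, g7, and_self]
  · have h2 := submod hp (Setoid.comap z0 (spt_rB D)) (Setoid.comap zB (spt_rB D))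
      (Setoid.comap z0 (Setoid.ker (fJ D.l D.T)))
    have e1 : Ent D.pz (Setoid.comap z0 (Setoid.ker (fJ D.l D.T))) = D.eJ := by
      rw [m0.Ent_eq, spt_ker_fJ]
    have e2 : Ent D.pz (Setoid.comap z0 (spt_rB D) ⊓ Setoid.comap z0 (Setoid.ker (fJ D.l D.T)))
        = D.eB := by
      have : Ent D.pz (Setoid.comap z0 (spt_rB D)) = D.eB := by
        rw [m0.Ent_eq]
        rfl
      rw [← this]
      exact Ent_congr' hp fun y y' _ _ => ⟨fun g => g.1, fun g => ⟨g, spt_rB_fJ D g⟩⟩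
    have e3 : Ent D.pz (Setoid.comap zB (spt_rB D) ⊓ Setoid.comap z0 (Setoid.ker (fJ D.l D.T)))
        = D.eB := by
      have : Ent D.pz (Setoid.comap zB (spt_rB D)) = D.eB := by
        rw [mB.Ent_eq]
        rfl
      rw [← this]
      refine Ent_congr' hp fun y y' h h' => ⟨fun g => g.1, fun g => ⟨g, ?_⟩⟩
      have k := hl y h
      have k' := hl y' h'
      have g1 : D.l (zB y) = D.l (zB y') := g.1
      have g2 : D.T (zB y) = D.T (zB y') := g.2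
      have g3 : fJ D.l D.T (z0 y) = fJ D.l D.T (z0 y') := by
        unfold fJ
        rw [← k.lB, ← k'.lB, g1, ← k.tB, ← k'.tB, g2]
      exact g3
    rw [e1, e2, e3] at h2
    have e4 : D.H {VV.l0, VV.T0, VV.B} ≤ Ent D.pz (Setoid.comap z0 (spt_rB D) ⊓
        (Setoid.comap zB (spt_rB D) ⊓ Setoid.comap z0 (Setoid.ker (fJ D.l D.T)))) := by
      unfold Dat.H HH
      refine Ent_mono' hp fun y y' h h' g => ?_
      rw [inf_rel]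
      have g1 : D.l (z0 y) = D.l (z0 y') := g.1.1
      have g2 : D.T (z0 y) = D.T (z0 y') := g.1.2
      have g3 : D.T (zB y) = D.T (zB y') := g.2.1.2
      simp only [Finset.mem_insert, Finset.mem_singleton, forall_eq_or_imp, forall_eq, Dat.V_l0,
        Dat.V_T0, Dat.V_B]
      exact ⟨g1, g2, g3⟩
    linarith

end Pool.Agent.Helper93.TS
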